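import Mathlib

/-!
# An equivelar self-dual polyhedron without a polarity

We exhibit an abstract polyhedron of type {6,6} with 8 vertices, 24 edges and 8 faces that is
self-dual, but has no duality of period 2.
-/

namespace Pool.Agent.Results.MP_1940b6_co.NoPolarity

/-- Two flags are adjacent if each of them has exactly one face that is not in the other. -/
def FlagAdj {P : Type} (A B : Set P) : Prop :=
  (A \ B).ncard = 1 ∧ (B \ A).ncard = 1

/-- The partially ordered set `P` with rank function `rk` is an abstract polyhedron (an abstract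
polytope of rank 3). Flags are the maximal chains. -/
structure IsPolyhedron (P : Type) [PartialOrder P] (rk : P → ℤ) : Prop where
  /-- the rank function is strictly monotone -/
  strict_mono : StrictMono rk
  /-- the rank function is onto `{-1, 0, 1, 2, 3}` -/
  range_eq : Set.range rk = {-1, 0, 1, 2, 3}
  /-- there is a least face -/
  least : ∃ b : P, ∀ x, b ≤ x
  /-- there is a greatest face -/
  greatest : ∃ t : P, ∀ x, x ≤ t
  /-- every flag has exactly five elements -/
  flag_card : ∀ Φ : Set P, IsMaxChain (· ≤ ·) Φ → Φ.ncard = 5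
  /-- the diamond condition -/
  diamond : ∀ F G : P, F ≤ G → rk G = rk F + 2 →
    {H : P | rk H = rk F + 1 ∧ F ≤ H ∧ H ≤ G}.ncard = 2
  /-- strong flag-connectedness -/
  connected : ∀ Φ Ψ : Set P, IsMaxChain (· ≤ ·) Φ → IsMaxChain (· ≤ ·) Ψ →
    Relation.ReflTransGen
      (fun A B : Set P => IsMaxChain (· ≤ ·) B ∧ FlagAdj A B ∧ Φ ∩ Ψ ⊆ B) Φ Ψ

/-- `P` is equivelar of type `{p, q}`: every 2-face is a `p`-gon (it has exactly `p` vertices and
exactly `p` edges), and every vertex-figure is a `q`-gon (the vertex lies on exactly `q` edges and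
on exactly `q` 2-faces). -/
def IsEquivelar (P : Type) [PartialOrder P] (rk : P → ℤ) (p q : ℕ) : Prop :=
  (∀ F : P, rk F = 2 →
    {v : P | rk v = 0 ∧ v ≤ F}.ncard = p ∧ {e : P | rk e = 1 ∧ e ≤ F}.ncard = p) ∧
  (∀ v : P, rk v = 0 →
    {e : P | rk e = 1 ∧ v ≤ e}.ncard = q ∧ {F : P | rk F = 2 ∧ v ≤ F}.ncard = q)

/-- A duality is a bijection of the polyhedron with itself that reverses the order. -/
def IsDuality {P : Type} [PartialOrder P] (δ : P ≃ P) : Prop :=
  ∀ x y : P, x ≤ y ↔ δ y ≤ δ x

/-! ### The data of the example -/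

/-- The faces: 0 is the least face, 1-8 the vertices, 9-32 the edges, 33-40 the 2-faces and 41 is
the greatest face. -/
def Pt : Type := Fin 42

instance : Fintype Pt := inferInstanceAs (Fintype (Fin 42))
instance : DecidableEq Pt := inferInstanceAs (DecidableEq (Fin 42))


/-- The order matrix of the example. -/
def M : ℕ := 519855155847869002688333928299344755694949635149404332124249861163015942520807876280710907977085354407651122668734592768596951653594445344085060827596846652592015613185048655816127342492430570413920689423939876304604570800443768853917374083010027511157134314597112056984839719038750207917838274274590956505852088836135477866588940839409056926590599139164945735683209203256517560967602360914602336641954717245814989642841404283748141378180946241625658683016482953303979152056442510904515870007064582579297118390602026888398364475391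

def VT : ℕ := 7855591703856323290775799900495335892490382129073043674932077328589596620688222087425035685379143348328642250878931436870444736317213729022387829107028327556759122126053505
def ET : ℕ := 125628140196782595067980664991495966578558231839672030304356441195499172490790248947507514498384698794415897569050878802471133632791940696297991779622677617463018380111155785
def FT : ℕ := 137344451940823596385398864822664987439503194095191349754803934006026372761375610335333490685206943932873386953324701704160149606021261263500077877736696641888818444766947425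
def A0 : ℕ := 14196404357647507340033311011435194316043435405494563063202168899938236297581058314937523428579405566140266219445575019651991210075049683674006809166236928602784482464673516572755085622485549426998820865
def A1 : ℕ := 2605299169370220505053478037856276883225218056375809276955211538368989059160439168208239616269617444320330079694491205588649993987188189324598025359055629665070034734415799897430372059705224387335003791
def A2 : ℕ := 14504957762525802597656975702594828565156048462569673073740975747904863471618382646646302637061371592681122497143441288363546820350511865274481485137524390940735997607673997475251892720082715577902186755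
def PK : ℕ := 3582456049212643693860195413477777321084390953435989158307
def DD : ℕ := 9058151378220262836502221004008196450633386839955224353518928233348085929
def DI : ℕ := 12535782505965659769321286428951055838388532103417511704822963480363157609


/-- The order relation. -/
def leB (a b : ℕ) : Bool := M.testBit (42 * a + b)

/-- The level of a face (its rank plus one). -/
def lv (a : ℕ) : ℕ := if a = 0 then 0 else if a < 9 then 1 else if a < 33 then 2 else
  if a < 41 then 3 else 4

theorem leB_refl : ∀ a : Fin 42, leB a a = true := by decide +kernel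

theorem leB_trans : ∀ a b : Fin 42, leB a b = true → ∀ c : Fin 42, leB b c = true →
    leB a c = true := by decide +kernel

theorem leB_lv : ∀ a b : Fin 42, leB a b = true → a = b ∨ lv a < lv b := by decide +kernel

/-- The level of a face. -/
def Pt.lvl (x : Pt) : ℕ := lv (x : Fin 42).val

instance instPO : PartialOrder Pt where
  le a b := leB (a : Fin 42).val (b : Fin 42).val = true
  le_refl a := leB_refl a
  le_trans a b c h1 h2 := leB_trans a b h1 c h2
  le_antisymm a b h1 h2 := by
    rcases leB_lv a b h1 with h | h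
    · exact h
    · rcases leB_lv b a h2 with h' | h'
      · exact h'.symm
      · omega

instance instDecLe : DecidableRel (fun a b : Pt => a ≤ b) := fun a b =>
  inferInstanceAs (Decidable (leB (a : Fin 42).val (b : Fin 42).val = true))

instance instDecLe' (a b : Pt) : Decidable (a ≤ b) :=
  inferInstanceAs (Decidable (leB (a : Fin 42).val (b : Fin 42).val = true))

theorem le_def (a b : Pt) : a ≤ b ↔ leB (a : Fin 42).val (b : Fin 42).val = true := Iff.rfl

theorem lt_lvl {a b : Pt} (h : a < b) : a.lvl < b.lvl := by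
  rcases leB_lv a b h.le with h' | h'
  · exact absurd h' h.ne
  · exact h'

theorem le_lvl {a b : Pt} (h : a ≤ b) : a = b ∨ a.lvl < b.lvl := leB_lv a b h

/-- the least face -/
def bot : Pt := (0 : Fin 42)
/-- the greatest face -/
def top : Pt := (41 : Fin 42)

theorem bot_le' : ∀ x : Pt, bot ≤ x := by
  have : ∀ x : Fin 42, leB 0 x = true := by decide +kernel
  exact this

theorem le_top' : ∀ x : Pt, x ≤ top := by
  have : ∀ x : Fin 42, leB x 41 = true := by decide +kernel
  exact this

theorem lvl_le : ∀ x : Pt, x.lvl ≤ 4 := by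
  have : ∀ x : Fin 42, lv x ≤ 4 := by decide +kernel
  exact this

theorem between : ∀ a b : Pt, a ≤ b → ∀ i : Fin 5, a.lvl < i → i < b.lvl →
    ∃ c : Pt, c.lvl = i ∧ a ≤ c ∧ c ≤ b := by
  have : ∀ a b : Fin 42, leB a b = true → ∀ i : Fin 5, lv a < i → i < lv b →
    ∃ c : Fin 42, lv c = i ∧ leB a c = true ∧ leB c b = true := by decide +kernel
  exact this

/-- The rank function. -/
def rk (x : Pt) : ℤ := (x.lvl : ℤ) - 1

/-! ### The flags -/

/-- a face of the `x`-th flag -/
def tb (T : ℕ) (x : ℕ) : ℕ := (T >>> (6 * x)) % 64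

/-- the index of the face of rank `i` of the `x`-th flag -/
def tt (i : Fin 3) (x : ℕ) : ℕ :=
  match i with
  | 0 => tb VT x
  | 1 => tb ET x
  | 2 => tb FT x

/-- the neighbours of a flag -/
def an (k : Fin 3) (x : ℕ) : ℕ :=
  match k with
  | 0 => (A0 >>> (7 * x)) % 128
  | 1 => (A1 >>> (7 * x)) % 128
  | 2 => (A2 >>> (7 * x)) % 128

theorem tt_lt : ∀ i : Fin 3, ∀ x : Fin 96, tt i x < 42 := by decide +kernel

theorem an_lt : ∀ i : Fin 3, ∀ x : Fin 96, an i x < 96 := by decide +kernel

/-- the face of rank `i` of the flag `x` -/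
def T (i : Fin 3) (x : Fin 96) : Pt := (⟨tt i x, tt_lt i x⟩ : Fin 42)

/-- the `k`-adjacent flag of the flag `x` -/
def adj (k : Fin 3) (x : Fin 96) : Fin 96 := ⟨an k x, an_lt k x⟩

theorem T_lvl (i : Fin 3) (x : Fin 96) : (T i x).lvl = i.val + 1 := by
  have : ∀ i : Fin 3, ∀ x : Fin 96, lv (tt i x) = i.val + 1 := by decide +kernel
  exact this i x

theorem T_le (x : Fin 96) : T 0 x ≤ T 1 x ∧ T 1 x ≤ T 2 x := by
  have : ∀ x : Fin 96, leB (tt 0 x) (tt 1 x) = true ∧ leB (tt 1 x) (tt 2 x) = true := by
    decide +kernel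
  exact this x

theorem exists_flag (v e f : Pt) (hv : v.lvl = 1) (he : e.lvl = 2) (hf : f.lvl = 3)
    (h1 : v ≤ e) (h2 : e ≤ f) : ∃ x : Fin 96, T 0 x = v ∧ T 1 x = e ∧ T 2 x = f := by
  have key : ∀ v : Fin 42, lv v = 1 → ∀ e : Fin 42, lv e = 2 → leB v e = true → ∀ f : Fin 42,
      lv f = 3 → leB e f = true →
      ∃ x : Fin 96, tt 0 x = v ∧ tt 1 x = e ∧ tt 2 x = f := by decide +kernel
  obtain ⟨x, h0, h1, h2⟩ := key v hv e he h1 f hf h2
  exact ⟨x, Fin.ext h0, Fin.ext h1, Fin.ext h2⟩

theorem T_adj_ne (i k : Fin 3) (x : Fin 96) (h : i ≠ k) : T i (adj k x) = T i x := by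
  have : ∀ i k : Fin 3, i ≠ k → ∀ x : Fin 96, tt i (an k x) = tt i x := by decide +kernel
  exact Fin.ext (this i k h x)

theorem T_adj_self (k : Fin 3) (x : Fin 96) : T k (adj k x) ≠ T k x := by
  have : ∀ k : Fin 3, ∀ x : Fin 96, tt k (an k x) ≠ tt k x := by decide +kernel
  intro h
  exact this k x (congrArg (fun z : Fin 42 => z.val) h)

theorem adj_adj (k : Fin 3) (x : Fin 96) : adj k (adj k x) = x := by
  have : ∀ k : Fin 3, ∀ x : Fin 96, an k (an k x) = x := by decide +kernel
  exact Fin.ext (this k x)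

theorem agree2 (k : Fin 3) (x y : Fin 96) (h : ∀ i, i ≠ k → T i x = T i y) :
    y = x ∨ y = adj k x := by
  have key : ∀ k : Fin 3, ∀ x y : Fin 96, (∀ i : Fin 3, i ≠ k → tt i x = tt i y) →
    y.val = x.val ∨ y.val = an k x := by decide +kernel
  rcases key k x y (fun i hi => congrArg (fun z : Fin 42 => z.val) (h i hi)) with h | h
  · exact Or.inl (Fin.ext h)
  · exact Or.inr (Fin.ext h)

theorem T_inj (x y : Fin 96) (h : ∀ i, T i x = T i y) : y = x := by
  rcases agree2 0 x y (fun i _ => h i) with h' | h'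
  · exact h'
  · exfalso
    exact T_adj_self 0 x (by rw [← h', h 0])

/-- alternate moves -/
def alt (i j : Fin 3) : ℕ → ℕ → ℕ
  | 0, x => x
  | n + 1, x => alt j i n (an i x)

theorem alt_reach (K : Finset (Fin 3)) (i j : Fin 3) (hi : i ∈ K) (hj : j ∈ K) (n : ℕ)
    (x y : Fin 96) (h : alt i j n x = y) :
    Relation.ReflTransGen (fun p q : Fin 96 => ∃ k ∈ K, q = adj k p) x y := by
  induction n generalizing i j x with
  | zero =>
    have : x = y := Fin.ext h
    rw [this]
  | succ n ih =>
    have h1 := ih j i hj hi (adj i x) h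
    exact Relation.ReflTransGen.head ⟨i, hi, rfl⟩ h1

theorem agree_V : ∀ x y : Fin 96, tt 0 x = tt 0 y → ∃ n : Fin 12, alt 1 2 n x = y := by
  decide +kernel

theorem agree_F : ∀ x y : Fin 96, tt 2 x = tt 2 y → ∃ n : Fin 12, alt 0 1 n x = y := by
  decide +kernel

theorem agree_E : ∀ x y : Fin 96, tt 1 x = tt 1 y → ∃ n : Fin 4, alt 0 2 n x = y := by
  decide +kernel

/-- one step towards the flag 0 -/
def par (x : ℕ) : ℕ :=
  match (PK >>> (2 * x)) % 4 with
  | 0 => an 0 x
  | 1 => an 1 x
  | 2 => an 2 x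
  | _ => x

theorem par_cases (x : Fin 96) : par x = x ∨ ∃ k : Fin 3, par x = an k x := by
  unfold par
  split
  · exact Or.inr ⟨0, rfl⟩
  · exact Or.inr ⟨1, rfl⟩
  · exact Or.inr ⟨2, rfl⟩
  · exact Or.inl rfl

theorem par_root : ∀ x : Fin 96, par^[9] x = 0 := by
  decide +kernel

theorem reach_iter (n : ℕ) : ∀ x : Fin 96, par^[n] x = 0 →
    Relation.ReflTransGen (fun p q : Fin 96 => ∃ k : Fin 3, q = adj k p) x 0 := by
  induction n with
  | zero =>
    intro x h
    have : x = 0 := Fin.ext h
    rw [this]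
  | succ n ih =>
    intro x h
    rw [Function.iterate_succ_apply] at h
    rcases par_cases x with h' | ⟨k, h'⟩
    · rw [h'] at h
      exact ih x h
    · rw [h'] at h
      exact Relation.ReflTransGen.head ⟨k, rfl⟩ (ih (adj k x) h)

theorem reach_all (x y : Fin 96) :
    Relation.ReflTransGen (fun p q : Fin 96 => ∃ k : Fin 3, q = adj k p) x y := by
  have h1 : ∀ x, Relation.ReflTransGen (fun p q : Fin 96 => ∃ k : Fin 3, q = adj k p) x 0 :=
    fun x => reach_iter 9 x (par_root x)
  refine (h1 x).trans ?_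
  have hs : Std.Symm (fun p q : Fin 96 => ∃ k : Fin 3, q = adj k p) := by
    refine ⟨?_⟩
    rintro p q ⟨k, rfl⟩
    exact ⟨k, (adj_adj k p).symm⟩
  exact (Relation.ReflTransGen.stdSymm (r := fun p q : Fin 96 => ∃ k : Fin 3, q = adj k p)).symm
    _ _ (h1 y)

theorem reach (x y : Fin 96) (K : Finset (Fin 3)) (hK : ∀ i, i ∉ K → T i x = T i y) :
    Relation.ReflTransGen (fun p q : Fin 96 => ∃ k ∈ K, q = adj k p) x y := by
  have hc : K = Finset.univ ∨ (∃ k, K ⊆ {k}) ∨ (K = {0, 1}) ∨ (K = {0, 2}) ∨ (K = {1, 2}) := by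
    clear hK
    revert K
    decide
  rcases hc with h | ⟨k, hk⟩ | h | h | h
  · subst h
    refine Relation.ReflTransGen.mono ?_ _ _ (reach_all x y)
    rintro p q ⟨k, h⟩
    exact ⟨k, Finset.mem_univ k, h⟩
  · rcases agree2 k x y (fun i hi => hK i (fun h => hi (Finset.mem_singleton.1 (hk h)))) with h | h
    · rw [h]
    · by_cases hkK : k ∈ K
      · exact Relation.ReflTransGen.single ⟨k, hkK, h⟩
      · exfalso
        have := hK k hkK
        rw [h] at this
        exact T_adj_self k x this.symm
  · subst h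
    obtain ⟨n, hn⟩ := agree_F x y (congrArg (fun z : Fin 42 => z.val) (hK 2 (by decide)))
    exact alt_reach _ 0 1 (by decide) (by decide) n x y hn
  · subst h
    obtain ⟨n, hn⟩ := agree_E x y (congrArg (fun z : Fin 42 => z.val) (hK 1 (by decide)))
    exact alt_reach _ 0 2 (by decide) (by decide) n x y hn
  · subst h
    obtain ⟨n, hn⟩ := agree_V x y (congrArg (fun z : Fin 42 => z.val) (hK 0 (by decide)))
    exact alt_reach _ 1 2 (by decide) (by decide) n x y hn

/-- the set of faces of the flag `x` -/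
def fl (x : Fin 96) : Set Pt := {bot, T 0 x, T 1 x, T 2 x, top}

theorem mem_fl (x : Fin 96) (c : Pt) : c ∈ fl x ↔ c = bot ∨ (∃ i, c = T i x) ∨ c = top := by
  unfold fl
  simp only [Set.mem_insert_iff, Set.mem_singleton_iff]
  constructor
  · rintro (h | h | h | h | h)
    · exact Or.inl h
    · exact Or.inr (Or.inl ⟨0, h⟩)
    · exact Or.inr (Or.inl ⟨1, h⟩)
    · exact Or.inr (Or.inl ⟨2, h⟩)
    · exact Or.inr (Or.inr h)
  · rintro (h | ⟨i, h⟩ | h)
    · exact Or.inl h
    · fin_cases i
      · exact Or.inr (Or.inl h)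
      · exact Or.inr (Or.inr (Or.inl h))
      · exact Or.inr (Or.inr (Or.inr (Or.inl h)))
    · exact Or.inr (Or.inr (Or.inr (Or.inr h)))

theorem bot_lvl : bot.lvl = 0 := rfl
theorem top_lvl : top.lvl = 4 := rfl

theorem T_le_T (x : Fin 96) (i j : Fin 3) (h : i ≤ j) : T i x ≤ T j x := by
  have h1 := (T_le x).1
  have h2 := (T_le x).2
  have h3 := h1.trans h2
  fin_cases i <;> fin_cases j <;> first | exact le_refl _ | exact h1 | exact h2 | exact h3 |
    exact absurd h (by decide)

theorem fl_chain (x : Fin 96) : IsChain (· ≤ ·) (fl x) := by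
  intro a ha b hb _
  rw [mem_fl] at ha hb
  rcases ha with rfl | ⟨i, rfl⟩ | rfl
  · exact Or.inl (bot_le' _)
  · rcases hb with rfl | ⟨j, rfl⟩ | rfl
    · exact Or.inr (bot_le' _)
    · rcases le_total i j with h | h
      · exact Or.inl (T_le_T x i j h)
      · exact Or.inr (T_le_T x j i h)
    · exact Or.inl (le_top' _)
  · exact Or.inr (le_top' _)

theorem fl_lvl (x : Fin 96) (n : ℕ) (hn : n ≤ 4) : ∃ c ∈ fl x, c.lvl = n := by
  interval_cases n
  · exact ⟨bot, (mem_fl _ _).2 (Or.inl rfl), rfl⟩
  · exact ⟨T 0 x, (mem_fl _ _).2 (Or.inr (Or.inl ⟨0, rfl⟩)), T_lvl 0 x⟩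
  · exact ⟨T 1 x, (mem_fl _ _).2 (Or.inr (Or.inl ⟨1, rfl⟩)), T_lvl 1 x⟩
  · exact ⟨T 2 x, (mem_fl _ _).2 (Or.inr (Or.inl ⟨2, rfl⟩)), T_lvl 2 x⟩
  · exact ⟨top, (mem_fl _ _).2 (Or.inr (Or.inr rfl)), rfl⟩

theorem chain_inj {s : Set Pt} (hs : IsChain (· ≤ ·) s) {a b : Pt} (ha : a ∈ s) (hb : b ∈ s)
    (h : a.lvl = b.lvl) : a = b := by
  by_contra hne
  rcases hs ha hb hne with h' | h'
  · rcases le_lvl h' with h'' | h''
    · exact hne h''
    · omega
  · rcases le_lvl h' with h'' | h''
    · exact hne h''.symm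
    · omega

theorem fl_max (x : Fin 96) : IsMaxChain (· ≤ ·) (fl x) := by
  refine ⟨fl_chain x, ?_⟩
  intro s hs hsub
  refine Set.Subset.antisymm hsub ?_
  intro a ha
  obtain ⟨c, hc, hcl⟩ := fl_lvl x a.lvl (lvl_le a)
  have : c = a := chain_inj hs (hsub hc) ha hcl
  rw [← this]
  exact hc

theorem fl_card (x : Fin 96) : (fl x).ncard = 5 := by
  have h1 : Set.BijOn Pt.lvl (fl x) (Set.Iio 5) := by
    refine ⟨?_, ?_, ?_⟩
    · intro a _
      have := lvl_le a
      simp only [Set.mem_Iio]
      omega
    · intro a ha b hb h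
      exact chain_inj (fl_chain x) ha hb h
    · intro n hn
      simp only [Set.mem_Iio] at hn
      obtain ⟨c, hc, h⟩ := fl_lvl x n (by omega)
      exact ⟨c, hc, h⟩
  have h2 := h1.image_eq
  have h3 : (Pt.lvl '' fl x).ncard = (fl x).ncard := h1.injOn.ncard_image
  rw [← h3, h2]
  have : (Set.Iio 5 : Set ℕ) = ((Finset.range 5 : Finset ℕ) : Set ℕ) := by
    ext; simp
  rw [this, Set.ncard_coe_finset]
  rfl

theorem max_lvl (Φ : Set Pt) (h : IsMaxChain (· ≤ ·) Φ) (n : ℕ) (hn : n ≤ 4) :
    ∃ c ∈ Φ, c.lvl = n := by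
  by_contra hcon
  push Not at hcon
  have hadd : ∀ c : Pt, (∀ x ∈ Φ, x ≤ c ∨ c ≤ x) → c ∈ Φ := by
    intro c hc
    have h1 : IsChain (· ≤ ·) (insert c Φ) := by
      refine h.1.insert ?_
      intro b hb _
      rcases hc b hb with h | h
      · exact Or.inr h
      · exact Or.inl h
    have h2 := h.2 h1 (Set.subset_insert c Φ)
    rw [h2]
    exact Set.mem_insert c Φ
  have hb : bot ∈ Φ := hadd bot (fun x _ => Or.inr (bot_le' x))
  have ht : top ∈ Φ := hadd top (fun x _ => Or.inl (le_top' x))
  have hfin : ∀ s : Set Pt, s.Finite := fun s => Set.toFinite s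
  have hn0 : 0 < n := by
    rcases Nat.eq_zero_or_pos n with h0 | h0
    · exact absurd (bot_lvl.trans h0.symm) (hcon bot hb)
    · exact h0
  have hn4 : n < 4 := by
    rcases Nat.lt_or_ge n 4 with h0 | h0
    · exact h0
    · exact absurd (top_lvl.trans (by omega)) (hcon top ht)
  obtain ⟨a, ⟨haΦ, han⟩, hamax⟩ := Set.exists_max_image {x ∈ Φ | x.lvl < n} Pt.lvl (hfin _)
    ⟨bot, hb, by rw [bot_lvl]; exact hn0⟩
  obtain ⟨b, ⟨hbΦ, hbn⟩, hbmin⟩ := Set.exists_min_image {x ∈ Φ | n < x.lvl} Pt.lvl (hfin _)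
    ⟨top, ht, by rw [top_lvl]; exact hn4⟩
  have hab : a ≤ b := by
    rcases h.1.total haΦ hbΦ with h' | h'
    · exact h'
    · rcases le_lvl h' with h'' | h''
      · rw [h'']
      · omega
  obtain ⟨c, hc, hac, hcb⟩ := between a b hab ⟨n, by omega⟩ han hbn
  have hcΦ : c ∈ Φ := by
    refine hadd c ?_
    intro x hx
    have hxn := hcon x hx
    rcases lt_or_gt_of_ne hxn with h' | h'
    · left
      have h1 := hamax x ⟨hx, h'⟩
      rcases h.1.total hx haΦ with h2 | h2
      · exact h2.trans hac
      · rcases le_lvl h2 with h3 | h3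
        · rw [← h3]; exact hac
        · omega
    · right
      have h1 := hbmin x ⟨hx, h'⟩
      rcases h.1.total hx hbΦ with h2 | h2
      · rcases le_lvl h2 with h3 | h3
        · rw [h3]; exact hcb
        · omega
      · exact hcb.trans h2
  exact hcon c hcΦ hc

theorem chain_le {s : Set Pt} (hs : IsChain (· ≤ ·) s) {a b : Pt} (ha : a ∈ s) (hb : b ∈ s)
    (h : a.lvl ≤ b.lvl) : a ≤ b := by
  rcases hs.total ha hb with h' | h'
  · exact h'
  · rcases le_lvl h' with h'' | h''
    · rw [h'']
    · omega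

theorem exists_fl (Φ : Set Pt) (h : IsMaxChain (· ≤ ·) Φ) : ∃ x, Φ = fl x := by
  obtain ⟨v, hv, hv1⟩ := max_lvl Φ h 1 (by norm_num)
  obtain ⟨e, he, he1⟩ := max_lvl Φ h 2 (by norm_num)
  obtain ⟨f, hf, hf1⟩ := max_lvl Φ h 3 (by norm_num)
  obtain ⟨b, hb, hb1⟩ := max_lvl Φ h 0 (by norm_num)
  obtain ⟨t, ht, ht1⟩ := max_lvl Φ h 4 (by norm_num)
  obtain ⟨x, h0, h1, h2⟩ := exists_flag v e f hv1 he1 hf1
    (chain_le h.1 hv he (by omega)) (chain_le h.1 he hf (by omega))
  refine ⟨x, ?_⟩
  refine h.2 (fl_chain x) ?_ |>.symm ▸ rfl |> fun h => h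
  intro a ha
  have hal := lvl_le a
  have : a.lvl = 0 ∨ a.lvl = 1 ∨ a.lvl = 2 ∨ a.lvl = 3 ∨ a.lvl = 4 := by omega
  rw [mem_fl]
  rcases this with h' | h' | h' | h' | h'
  · left
    rcases le_lvl (bot_le' a) with h'' | h''
    · exact h''.symm
    · rw [bot_lvl] at h''; omega
  · right; left
    exact ⟨0, by rw [h0]; exact chain_inj h.1 ha hv (by omega)⟩
  · right; left
    exact ⟨1, by rw [h1]; exact chain_inj h.1 ha he (by omega)⟩
  · right; left
    exact ⟨2, by rw [h2]; exact chain_inj h.1 ha hf (by omega)⟩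
  · right; right
    rcases le_lvl (le_top' a) with h'' | h''
    · exact h''
    · rw [top_lvl] at h''; omega

theorem fl_inter (x y z : Fin 96) (h : ∀ i, T i x = T i y → T i z = T i x) :
    fl x ∩ fl y ⊆ fl z := by
  rintro c ⟨hx, hy⟩
  rw [mem_fl] at hx hy ⊢
  rcases hx with hx | ⟨i, hx⟩ | hx
  · exact Or.inl hx
  · rcases hy with hy | ⟨j, hy⟩ | hy
    · exact Or.inl hy
    · have hij : i = j := by
        have h1 := T_lvl i x
        have h2 := T_lvl j y
        rw [← hx] at h1
        rw [← hy] at h2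
        apply Fin.ext
        omega
      subst hij
      exact Or.inr (Or.inl ⟨i, by rw [h i (hx ▸ hy), hx]⟩)
    · exact Or.inr (Or.inr hy)
  · exact Or.inr (Or.inr hx)

theorem fl_adj (x : Fin 96) (k : Fin 3) : fl x \ fl (adj k x) = {T k x} := by
  ext c
  simp only [Set.mem_sdiff, Set.mem_singleton_iff]
  rw [mem_fl, mem_fl]
  constructor
  · rintro ⟨h1, h2⟩
    rcases h1 with h1 | ⟨i, h1⟩ | h1
    · exact absurd (Or.inl h1) h2
    · by_cases hik : i = k
      · rw [h1, hik]
      · exfalso
        exact h2 (Or.inr (Or.inl ⟨i, by rw [T_adj_ne i k x hik]; exact h1⟩))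
    · exact absurd (Or.inr (Or.inr h1)) h2
  · intro h
    refine ⟨Or.inr (Or.inl ⟨k, h⟩), ?_⟩
    have hl := T_lvl k x
    have hk := k.isLt
    rintro (h' | ⟨i, h'⟩ | h')
    · rw [← h, h', bot_lvl] at hl
      omega
    · have h1 := T_lvl i (adj k x)
      rw [← h'] at h1
      rw [← h] at hl
      have : i = k := by apply Fin.ext; omega
      subst this
      exact T_adj_self i x (by rw [← h, ← h'])
    · rw [← h, h', top_lvl] at hl
      omega

theorem flagAdj (x : Fin 96) (k : Fin 3) : FlagAdj (fl x) (fl (adj k x)) := by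
  constructor
  · rw [fl_adj]
    exact Set.ncard_singleton _
  · have h := fl_adj (adj k x) k
    rw [adj_adj] at h
    rw [h]
    exact Set.ncard_singleton _

theorem conn (x y : Fin 96) : Relation.ReflTransGen
      (fun A B : Set Pt => IsMaxChain (· ≤ ·) B ∧ FlagAdj A B ∧ fl x ∩ fl y ⊆ B) (fl x) (fl y) := by
  classical
  let K : Finset (Fin 3) := Finset.univ.filter (fun k => T k x ≠ T k y)
  have hK : ∀ i, i ∉ K → T i x = T i y := by
    intro i hi
    by_contra h
    exact hi (Finset.mem_filter.2 ⟨Finset.mem_univ _, h⟩)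
  have h := reach x y K hK
  have main : ∀ z, Relation.ReflTransGen (fun p q : Fin 96 => ∃ k ∈ K, q = adj k p) x z →
      (∀ i, i ∉ K → T i z = T i x) ∧ Relation.ReflTransGen
      (fun A B : Set Pt => IsMaxChain (· ≤ ·) B ∧ FlagAdj A B ∧ fl x ∩ fl y ⊆ B)
      (fl x) (fl z) := by
    intro z hz
    induction hz with
    | refl => exact ⟨fun i _ => rfl, Relation.ReflTransGen.refl⟩
    | tail _ hs ih =>
      rename_i b c _
      obtain ⟨k, hk, rfl⟩ := hs
      have h1 : ∀ i, i ∉ K → T i (adj k b) = T i x := by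
        intro i hi
        have hik : i ≠ k := fun h => hi (h ▸ hk)
        rw [T_adj_ne i k b hik]
        exact ih.1 i hi
      refine ⟨h1, ih.2.tail ⟨fl_max _, flagAdj b k, ?_⟩⟩
      apply fl_inter
      intro i hi
      apply h1
      intro hiK
      exact (Finset.mem_filter.1 hiK).2 hi
  exact (main y h).2

/-! ### The polyhedron -/

theorem diamond' : ∀ F G : Pt, F ≤ G → G.lvl = F.lvl + 2 →
    (Finset.univ.filter (fun H : Pt => H.lvl = F.lvl + 1 ∧ F ≤ H ∧ H ≤ G)).card = 2 := by
  have : ∀ F G : Fin 42, leB F G = true → lv G = lv F + 2 →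
    (Finset.univ.filter (fun H : Fin 42 => lv H = lv F + 1 ∧ leB F H = true ∧
      leB H G = true)).card = 2 := by decide +kernel
  exact this

theorem ncard_eq_filter (p : Pt → Prop) [DecidablePred p] :
    {x : Pt | p x}.ncard = (Finset.univ.filter p).card := by
  rw [← Set.ncard_coe_finset]
  congr 1
  ext
  simp

theorem isPolyhedron : IsPolyhedron Pt rk where
  strict_mono := by
    intro a b h
    have := lt_lvl h
    unfold rk
    omega
  range_eq := by
    ext n
    simp only [Set.mem_range, Set.mem_insert_iff, Set.mem_singleton_iff]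
    constructor
    · rintro ⟨x, rfl⟩
      have := lvl_le x
      unfold rk
      omega
    · intro h
      obtain ⟨c, _, hc⟩ := fl_lvl 0 (n + 1).toNat (by omega)
      refine ⟨c, ?_⟩
      unfold rk
      omega
  least := ⟨bot, bot_le'⟩
  greatest := ⟨top, le_top'⟩
  flag_card := by
    intro Φ h
    obtain ⟨x, rfl⟩ := exists_fl Φ h
    exact fl_card x
  diamond := by
    intro F G h1 h2
    have h3 := diamond' F G h1 (by unfold rk at h2; omega)
    rw [← h3]
    rw [ncard_eq_filter]
    congr 1
    apply Finset.filter_congr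
    intro H _
    have : rk H = rk F + 1 ↔ H.lvl = F.lvl + 1 := by unfold rk; omega
    rw [this]
  connected := by
    intro Φ Ψ h1 h2
    obtain ⟨x, rfl⟩ := exists_fl Φ h1
    obtain ⟨y, rfl⟩ := exists_fl Ψ h2
    exact conn x y

theorem isEquivelar : IsEquivelar Pt rk 6 6 := by
  have h1 : ∀ F : Fin 42, lv F = 3 →
      (Finset.univ.filter (fun v : Fin 42 => lv v = 1 ∧ leB v F = true)).card = 6 ∧
      (Finset.univ.filter (fun v : Fin 42 => lv v = 2 ∧ leB v F = true)).card = 6 := by
    decide +kernel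
  have h2 : ∀ v : Fin 42, lv v = 1 →
      (Finset.univ.filter (fun F : Fin 42 => lv F = 2 ∧ leB v F = true)).card = 6 ∧
      (Finset.univ.filter (fun F : Fin 42 => lv F = 3 ∧ leB v F = true)).card = 6 := by
    decide +kernel
  have hrk : ∀ (x : Pt) (n : ℕ), rk x = n ↔ x.lvl = n + 1 := by
    intro x n; unfold rk; omega
  constructor
  · intro F hF
    obtain ⟨ha, hb⟩ := h1 F ((hrk F 2).1 hF)
    constructor
    · rw [ncard_eq_filter, ← ha]
      have : (Finset.univ.filter (fun v : Pt => rk v = 0 ∧ v ≤ F)) =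
        (Finset.univ.filter (fun v : Pt => v.lvl = 1 ∧ v ≤ F)) := by
        apply Finset.filter_congr
        intro v _
        rw [show (0 : ℤ) = ((0 : ℕ) : ℤ) from rfl, hrk v 0]
      rw [this]
      rfl
    · rw [ncard_eq_filter, ← hb]
      have : (Finset.univ.filter (fun v : Pt => rk v = 1 ∧ v ≤ F)) =
        (Finset.univ.filter (fun v : Pt => v.lvl = 2 ∧ v ≤ F)) := by
        apply Finset.filter_congr
        intro v _
        rw [show (1 : ℤ) = ((1 : ℕ) : ℤ) from rfl, hrk v 1]
      rw [this]
      rfl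
  · intro v hv
    obtain ⟨ha, hb⟩ := h2 v ((hrk v 0).1 hv)
    constructor
    · rw [ncard_eq_filter, ← ha]
      have : (Finset.univ.filter (fun F : Pt => rk F = 1 ∧ v ≤ F)) =
        (Finset.univ.filter (fun F : Pt => F.lvl = 2 ∧ v ≤ F)) := by
        apply Finset.filter_congr
        intro F _
        rw [show (1 : ℤ) = ((1 : ℕ) : ℤ) from rfl, hrk F 1]
      rw [this]
      rfl
    · rw [ncard_eq_filter, ← hb]
      have : (Finset.univ.filter (fun F : Pt => rk F = 2 ∧ v ≤ F)) =
        (Finset.univ.filter (fun F : Pt => F.lvl = 3 ∧ v ≤ F)) := by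
        apply Finset.filter_congr
        intro F _
        rw [show (2 : ℤ) = ((2 : ℕ) : ℤ) from rfl, hrk F 2]
      rw [this]
      rfl

/-! ### A duality -/

/-- the duality -/
def dd (x : ℕ) : ℕ := (DD >>> (6 * x)) % 64
/-- its inverse -/
def di (x : ℕ) : ℕ := (DI >>> (6 * x)) % 64

theorem dd_lt : ∀ x : Fin 42, dd x < 42 := by decide +kernel
theorem di_lt : ∀ x : Fin 42, di x < 42 := by decide +kernel

/-- the duality as a bijection -/
def dual : Pt ≃ Pt where
  toFun x := (⟨dd (x : Fin 42).val, dd_lt x⟩ : Fin 42)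
  invFun x := (⟨di (x : Fin 42).val, di_lt x⟩ : Fin 42)
  left_inv := by
    have : ∀ x : Fin 42, di (dd x) = x := by decide +kernel
    intro x
    exact Fin.ext (this x)
  right_inv := by
    have : ∀ x : Fin 42, dd (di x) = x := by decide +kernel
    intro x
    exact Fin.ext (this x)

theorem dual_isDuality : IsDuality dual := by
  have : ∀ x y : Fin 42, leB x y = true ↔ leB (dd y) (dd x) = true := by decide +kernel
  exact this

/-! ### There is no polarity -/

/-- apply a word to a flag -/
def act : List (Fin 3) → Fin 96 → Fin 96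
  | [], x => x
  | k :: w, x => act w (adj k x)

/-- the dual word -/
def rv (k : Fin 3) : Fin 3 :=
  match k with
  | 0 => 2
  | 1 => 1
  | 2 => 0

/-- apply a word to a natural number -/
def actn : List (Fin 3) → ℕ → ℕ
  | [], x => x
  | k :: w, x => actn w (an k x)

theorem act_val (w : List (Fin 3)) (x : Fin 96) : (act w x).val = actn w x.val := by
  induction w generalizing x with
  | nil => rfl
  | cons k w ih => exact ih (adj k x)

theorem main_check : ∀ y : Fin 96, actn [2, 1, 2, 1, 0, 1, 2, 0, 1, 0, 1, 0] y = y →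
    (actn [2, 1] 0 = y ∧ actn [0, 1] y ≠ 0) ∨ (actn [1, 0] 0 = y ∧ actn [1, 2] y ≠ 0) := by
  decide +kernel

theorem no_polarity (δ : Pt ≃ Pt) (h : IsDuality δ) (h2 : ∀ x, δ (δ x) = x) : False := by
  have hlt : ∀ {a b : Pt}, a < b → δ b < δ a := by
    intro a b hab
    refine lt_of_le_of_ne ((h a b).1 hab.le) ?_
    intro he
    exact hab.ne (δ.injective he).symm
  have hlv : ∀ {a b : Pt}, a ≤ b → a.lvl < b.lvl → (δ b).lvl < (δ a).lvl := by
    intro a b hab hl
    apply lt_lvl
    apply hlt
    refine lt_of_le_of_ne hab ?_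
    intro he
    rw [he] at hl
    exact lt_irrefl _ hl
  have hd : ∀ x : Fin 96, ∃ y : Fin 96, ∀ i : Fin 3, T i y = δ (T (rv i) x) := by
    intro x
    have a1 := hlv (bot_le' (T 0 x)) (by rw [bot_lvl, T_lvl]; omega)
    have a2 := hlv (T_le x).1 (by rw [T_lvl, T_lvl]; decide)
    have a3 := hlv (T_le x).2 (by rw [T_lvl, T_lvl]; decide)
    have a4 := hlv (le_top' (T 2 x)) (by rw [top_lvl, T_lvl]; decide)
    have a5 := lvl_le (δ bot)
    obtain ⟨y, h0, h1, h2⟩ := exists_flag (δ (T 2 x)) (δ (T 1 x)) (δ (T 0 x)) (by omega) (by omega)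
      (by omega) ((h _ _).1 (T_le x).2) ((h _ _).1 (T_le x).1)
    refine ⟨y, ?_⟩
    intro i
    fin_cases i
    · exact h0
    · exact h1
    · exact h2
  choose d hd using hd
  have hadj : ∀ k x, d (adj k x) = adj (rv k) (d x) := by
    intro k x
    have hrv : ∀ i : Fin 3, rv (rv i) = i := by decide
    rcases agree2 (rv k) (d x) (d (adj k x)) (by
      intro i hi
      rw [hd, hd, T_adj_ne (rv i) k x]
      intro hik
      apply hi
      rw [← hik, hrv]) with h' | h'
    · exfalso
      have h3 := hd (adj k x) (rv k)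
      rw [h', hd x (rv k), hrv] at h3
      exact T_adj_self k x (δ.injective h3).symm
    · exact h'
  have hact : ∀ w x, d (act w x) = act (w.map rv) (d x) := by
    intro w
    induction w with
    | nil => intro x; rfl
    | cons k w ih =>
      intro x
      show d (act w (adj k x)) = act (w.map rv) (adj (rv k) (d x))
      rw [ih, hadj]
  have hdd : ∀ x, d (d x) = x := by
    intro x
    have hrv : ∀ i : Fin 3, rv (rv i) = i := by decide
    symm
    apply T_inj
    intro i
    rw [hd, hd, hrv, h2]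
  have hw0 : act [0, 1, 0, 1, 2, 1, 0, 2, 1, 2, 1, 2] 0 = 0 := by
    apply Fin.ext
    rw [act_val]
    decide +kernel
  have h1 := hact [0, 1, 0, 1, 2, 1, 0, 2, 1, 2, 1, 2] 0
  rw [hw0] at h1
  have h1' := congrArg Fin.val h1
  rw [act_val] at h1'
  rcases main_check (d 0) h1'.symm with ⟨h3, h4⟩ | ⟨h3, h4⟩
  · have h5 : d 0 = act [2, 1] 0 := by
      apply Fin.ext
      rw [act_val]
      exact h3.symm
    have h6 := hdd 0
    rw [h5] at h6
    rw [hact] at h6
    have h7 := congrArg Fin.val h6
    rw [act_val] at h7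
    exact h4 h7
  · have h5 : d 0 = act [1, 0] 0 := by
      apply Fin.ext
      rw [act_val]
      exact h3.symm
    have h6 := hdd 0
    rw [h5] at h6
    rw [hact] at h6
    have h7 := congrArg Fin.val h6
    rw [act_val] at h7
    exact h4 h7

/-- There is a finite equivelar self-dual polyhedron (of type `{6, 6}`) none of whose dualities
has period 2. -/
theorem result : ∃ (P : Type) (_ : Finite P) (_ : PartialOrder P) (rk : P → ℤ),
    IsPolyhedron P rk ∧ IsEquivelar P rk 6 6 ∧ (∃ δ : P ≃ P, IsDuality δ) ∧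
      ¬ ∃ δ : P ≃ P, IsDuality δ ∧ ∀ x, δ (δ x) = x :=
  ⟨Pt, inferInstance, inferInstance, rk, isPolyhedron, isEquivelar, ⟨dual, dual_isDuality⟩,
    fun ⟨δ, h, h2⟩ => no_polarity δ h h2⟩

end Pool.Agent.Results.MP_1940b6_co.NoPolarity
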